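import Mathlib
import Pool.Agent.Lib.MP_12ff4f_co.Limit

set_option autoImplicit false

/-!
The least number `g n` of blocks (products of the edge sets of two bicliques) in a partition of
`E(K_n) x E(K_n)` satisfies `g n / n ^ 2 → 1 / 2`.
-/

namespace Pool.Agent.Results.MP_8421da_co.LimitOneHalf

open Filter Topology

theorem result :
    Tendsto (fun n : ℕ => (Pool.Agent.BicliqueHalf.g n : ℝ) / (n : ℝ) ^ 2) atTop (𝓝 (1 / 2)) :=
  Pool.Agent.BicliqueHalf.main

end Pool.Agent.Results.MP_8421da_co.LimitOneHalf
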